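import Mathlib

set_option autoImplicit false
open Set

namespace Pool.Agent.Uf

variable (U : Ultrafilter ℕ)

def Sm (S : Set ℕ) : Prop := Sᶜ ∈ U

variable {U}

lemma Sm.mono {S T : Set ℕ} (hT : Sm U T) (h : S ⊆ T) : Sm U S :=
  Filter.mem_of_superset hT (compl_subset_compl.2 h)

lemma Sm.union {S T : Set ℕ} (hS : Sm U S) (hT : Sm U T) : Sm U (S ∪ T) := by
  unfold Sm at *
  rw [compl_union]
  exact Filter.inter_mem hS hT

lemma sm_empty : Sm U ∅ := by
  unfold Sm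
  rw [compl_empty]
  exact Filter.univ_mem

lemma not_mem_sm {S : Set ℕ} : S ∉ U ↔ Sm U S := Ultrafilter.compl_mem_iff_notMem.symm

lemma sm_finite (hU : ∀ n : ℕ, U ≠ pure n) {S : Set ℕ} (hS : S.Finite) : Sm U S := by
  rw [← not_mem_sm]
  intro h
  obtain ⟨x, -, hx⟩ := Ultrafilter.eq_pure_of_finite_mem hS h
  exact hU x hx

/-- recursion lemma -/
lemma exists_seq {P : ℕ → Set ℕ → Prop} (hP : ∀ i T, Sm U T → ∃ s, Sm U s ∧ Disjoint s T ∧ P i s) :
    ∃ s : ℕ → Set ℕ, (∀ i, Sm U (s i) ∧ P i (s i)) ∧ ∀ i j, i ≠ j → Disjoint (s i) (s j) := by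
  choose! σ hσ using hP
  let T : ℕ → Set ℕ := fun n => Nat.rec ∅ (fun n T => T ∪ σ n T) n
  have hT0 : T 0 = ∅ := rfl
  have hT1 : ∀ n, T (n + 1) = T n ∪ σ n (T n) := fun n => rfl
  have hTsm : ∀ n, Sm U (T n) := by
    intro n
    induction n with
    | zero => rw [hT0]; exact sm_empty
    | succ n ih => rw [hT1]; exact ih.union (hσ n _ ih).1
  have hmono : Monotone T := monotone_nat_of_le_succ fun n => by rw [hT1]; exact subset_union_left
  have hlt : ∀ i j, i < j → Disjoint (σ i (T i)) (σ j (T j)) := by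
    intro i j hij
    have h1 : σ i (T i) ⊆ T j := by
      have : σ i (T i) ⊆ T (i + 1) := by rw [hT1]; exact subset_union_right
      exact this.trans (hmono hij)
    exact ((hσ j _ (hTsm j)).2.1.symm).mono_left h1
  refine ⟨fun n => σ n (T n), fun i => ⟨(hσ i _ (hTsm i)).1, (hσ i _ (hTsm i)).2.2⟩, ?_⟩
  intro i j hij
  rcases lt_or_gt_of_ne hij with h | h
  · exact hlt i j h
  · exact (hlt j i h).symm

lemma exists_sub {s : ℕ → Set ℕ} (hs : ∀ i j, i ≠ j → Disjoint (s i) (s j)) :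
    ∃ e : ℕ → ℕ, StrictMono e ∧ Sm U (⋃ i, s (e i)) := by
  by_cases h : (⋃ i, s (2 * i)) ∈ U
  · refine ⟨fun i => 2 * i + 1, fun i j hij => by simp only; omega, ?_⟩
    refine Filter.mem_of_superset h ?_
    intro x hx hx'
    obtain ⟨i, hi⟩ := mem_iUnion.1 hx
    obtain ⟨j, hj⟩ := mem_iUnion.1 hx'
    exact (hs (2 * i) (2 * j + 1) (by omega)).le_bot ⟨hi, hj⟩
  · exact ⟨fun i => 2 * i, fun i j hij => by simp only; omega, not_mem_sm.1 h⟩

variable {cl : Set ℕ → Set ℕ} (hm : ∀ S S', S ⊆ S' → Sm U S' → cl S ⊆ cl S') (he : ∀ S, Sm U S → S ⊆ cl S)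
  (hi : ∀ S, Sm U S → Sm U (cl S))

include hm hi in
lemma R_small {T : Set ℕ} (hT : Sm U T) :
    Sm U {z | ∀ M ∈ U, ∃ s, Sm U s ∧ s ⊆ M ∧ z ∈ cl (s ∪ T)} := by
  set R := {z | ∀ M ∈ U, ∃ s, Sm U s ∧ s ⊆ M ∧ z ∈ cl (s ∪ T)} with hR
  rcases R.eq_empty_or_nonempty with h0 | h0
  · rw [h0]; exact sm_empty
  obtain ⟨k, hk⟩ := (to_countable R).exists_eq_range h0
  have hkR : ∀ j, k j ∈ R := fun j => by rw [hk]; exact mem_range_self j
  obtain ⟨s, hs, hdis⟩ := exists_seq (U := U) (P := fun i s => ∀ j ≤ i, k j ∈ cl (s ∪ T)) (by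
    intro i T' hT'
    have : ∀ j, ∃ t, Sm U t ∧ t ⊆ T'ᶜ ∧ k j ∈ cl (t ∪ T) := fun j => hkR j _ hT'
    choose t ht1 ht2 ht3 using this
    have hsm : Sm U (⋃ j ∈ Finset.range (i + 1), t j) := by
      unfold Sm
      rw [compl_iUnion₂]
      exact (Filter.biInter_finset_mem _).2 fun j _ => ht1 j
    refine ⟨⋃ j ∈ Finset.range (i + 1), t j, hsm, ?_, ?_⟩
    · rw [disjoint_left]
      intro x hx
      simp only [mem_iUnion] at hx
      obtain ⟨j, _, hj⟩ := hx
      exact ht2 j hj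
    · intro j hj
      refine hm _ _ (union_subset_union_left _ ?_) (hsm.union hT) (ht3 j)
      exact subset_biUnion_of_mem (u := t) (show j ∈ ((Finset.range (i + 1) : Finset ℕ) : Set ℕ) by simp; omega))
  obtain ⟨e, he', hE⟩ := exists_sub (U := U) hdis
  refine (hi _ (hE.union hT)).mono ?_
  rw [hk]
  rintro _ ⟨j, rfl⟩
  refine hm _ _ (union_subset_union_left _ ?_) (hE.union hT) ((hs (e j)).2 j (he'.id_le j))
  exact subset_iUnion (fun i => s (e i)) j

include hm he hi in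
theorem exists_free (hU : ∀ n : ℕ, U ≠ pure n) : ∃ M ∈ U, ∃ ζ : ℕ → ℕ, Function.Injective ζ ∧ Disjoint (range ζ) M ∧
    ∀ n s, Sm U s → s ⊆ M → ζ n ∉ cl (s ∪ ζ '' {n}ᶜ) := by
  obtain ⟨S, hS, hdis⟩ := exists_seq (U := U)
    (P := fun _ s => ∃ z ∈ s, ∀ t, Sm U t → z ∈ cl t → (t ∩ s).Nonempty) (by
    intro _ T hT
    have h1 := R_small hm hi hT
    obtain ⟨z, hz⟩ : ∃ z, z ∉ {z | ∀ M ∈ U, ∃ s, Sm U s ∧ s ⊆ M ∧ z ∈ cl (s ∪ T)} := by
      by_contra hcon
      push Not at hcon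
      have : {z | ∀ M ∈ U, ∃ s, Sm U s ∧ s ⊆ M ∧ z ∈ cl (s ∪ T)} = univ := eq_univ_of_forall hcon
      rw [this] at h1
      unfold Sm at h1
      rw [compl_univ] at h1
      exact Filter.empty_notMem (U : Filter ℕ) h1
    simp only [mem_ofPred_eq, not_forall, not_exists, not_and] at hz
    obtain ⟨M, hM, hMz⟩ := hz
    have hzT : z ∉ T := by
      intro h
      exact hMz ∅ sm_empty (empty_subset _) (he _ (sm_empty.union hT) (Or.inr h))
    have hzM : z ∉ M := by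
      intro h
      have hsz : Sm U {z} := sm_finite hU (finite_singleton z)
      exact hMz {z} hsz (singleton_subset_iff.2 h) (he _ (hsz.union hT) (Or.inl rfl))
    refine ⟨(M ∪ T)ᶜ, ?_, ?_, z, ?_, ?_⟩
    · unfold Sm
      rw [compl_compl]
      exact Filter.mem_of_superset hM subset_union_left
    · rw [disjoint_left]
      intro x hx hxT
      exact hx (Or.inr hxT)
    · rintro (h | h)
      · exact hzM h
      · exact hzT h
    · intro t ht hzt
      by_contra hcon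
      rw [not_nonempty_iff_eq_empty] at hcon
      have hsub : t ⊆ (t ∩ M) ∪ T := by
        intro x hx
        have : x ∉ (M ∪ T)ᶜ := fun h => by
          have : x ∈ t ∩ (M ∪ T)ᶜ := ⟨hx, h⟩
          rw [hcon] at this
          exact this
        rw [notMem_compl_iff] at this
        rcases this with h | h
        · exact Or.inl ⟨hx, h⟩
        · exact Or.inr h
      have h2 : Sm U (t ∩ M) := ht.mono inter_subset_left
      exact hMz (t ∩ M) h2 inter_subset_right (hm _ _ hsub (h2.union hT) hzt))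
  have hS1 := fun i => (hS i).1
  have hS2 := fun i => (hS i).2
  choose z hz1 hz2 using hS2
  obtain ⟨e, he', hE⟩ := exists_sub (U := U) hdis
  have hzE : ∀ i, z (e i) ∈ ⋃ i, S (e i) := fun i => mem_iUnion.2 ⟨i, hz1 (e i)⟩
  refine ⟨(⋃ i, S (e i))ᶜ, hE, fun i => z (e i), ?_, ?_, ?_⟩
  · intro i j hij
    by_contra hne
    have hd := hdis (e i) (e j) (fun h => hne (he'.injective h))
    refine hd.le_bot ⟨hz1 (e i), ?_⟩
    have : z (e i) = z (e j) := hij
    rw [this]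
    exact hz1 (e j)
  · rw [disjoint_left]
    rintro _ ⟨i, rfl⟩ h
    exact h (hzE i)
  · intro n s hs hsM hcon
    have ht : Sm U (s ∪ (fun i => z (e i)) '' {n}ᶜ) := by
      refine hs.union (hE.mono ?_)
      rintro _ ⟨i, _, rfl⟩
      exact hzE i
    obtain ⟨x, hx, hxS⟩ := hz2 (e n) _ ht hcon
    rcases hx with hx | ⟨m, hm', rfl⟩
    · exact hsM hx (mem_iUnion.2 ⟨n, hxS⟩)
    · have hne : m ≠ n := hm'
      exact (hdis (e m) (e n) (fun h => hne (he'.injective h))).le_bot ⟨hz1 (e m), hxS⟩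

end Pool.Agent.Uf
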